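import Pool.Agent.H961.T4.StmA
import Pool.Graph.R_pool_sql_team_seeded_3997aac3.Q151.LC.Con1
import Pool.Graph.R_pool_sql_team_seeded_3997aac3.Q297.LC.Tro
import Pool.Graph.R_pool_sql_team_seeded_1e53cb71.Helper47K9.SC.Gr

/-! Project PN: job GRD (gradient of the free circuit kernel). -/

set_option autoImplicit false

namespace Pool.Agent.H640.PN

open Finset Equiv Matrix Q292.LC Pool.Agent.H961.T2 Pool.Agent.H961.T4
open Pool.Agent.Q68.LC (DS DS_TT TT_add)
open Pool.Agent.Y998.ST (nnRate qq)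

section gen

variable {V : Type} [Fintype V] [DecidableEq V]

theorem PP_add (e : ℕ → V × V) (δ : ℝ) (r n : ℕ) :
    PP e δ (r + n) = PP e δ r * PP (sh r e) δ n := by
  unfold PP
  rw [TT_add, Finset.image_empty]
  rfl

theorem DS_PP (e : ℕ → V × V) {δ : ℝ} (h0 : 0 ≤ δ) (h1 : δ ≤ 1) (n : ℕ) : DS (PP e δ n) :=
  DS_TT e _ _ h0 h1 n

/-- a short product is close to the identity -/
theorem near_one (e : ℕ → V × V) {δ : ℝ} (h0 : 0 ≤ δ) (h1 : δ ≤ 1) (a : V) (r : ℕ) :
    ∑ y, |PP e δ r a y - (1 : Matrix V V ℝ) a y| ≤ 2 * δ * r := by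
  induction r with
  | zero =>
    have : PP e δ 0 = 1 := rfl
    rw [this]
    simp
  | succ r ih =>
    have hD := DS_PP e h0 h1 r
    have h2 : ∀ y, PP e δ (r + 1) a y - (1 : Matrix V V ℝ) a y =
        δ * (PP e δ r a (swap (e r).1 (e r).2 y) - PP e δ r a y) +
          (PP e δ r a y - (1 : Matrix V V ℝ) a y) := by
      intro y
      rw [Pool.Agent.Q151.LC.PP_succ, Matrix.mul_apply, Pool.Agent.Q151.LC.row_fr]
      ring
    have h3 : ∑ y, |δ * (PP e δ r a (swap (e r).1 (e r).2 y) - PP e δ r a y)| ≤ 2 * δ := by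
      have h4 : ∀ y, |δ * (PP e δ r a (swap (e r).1 (e r).2 y) - PP e δ r a y)| ≤
          δ * (PP e δ r a (swap (e r).1 (e r).2 y) + PP e δ r a y) := by
        intro y
        rw [abs_mul, abs_of_nonneg h0]
        apply mul_le_mul_of_nonneg_left _ h0
        rw [abs_le]
        constructor <;> linarith [hD.nn a (swap (e r).1 (e r).2 y), hD.nn a y]
      refine (Finset.sum_le_sum fun y _ => h4 y).trans ?_
      rw [← Finset.mul_sum, Finset.sum_add_distrib,
        Equiv.sum_comp (swap (e r).1 (e r).2) (fun y => PP e δ r a y), hD.row]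
      linarith
    calc ∑ y, |PP e δ (r + 1) a y - (1 : Matrix V V ℝ) a y|
        ≤ ∑ y, (|δ * (PP e δ r a (swap (e r).1 (e r).2 y) - PP e δ r a y)| +
          |PP e δ r a y - (1 : Matrix V V ℝ) a y|) := by
          apply Finset.sum_le_sum
          intro y _
          rw [h2]
          exact abs_add_le _ _
      _ ≤ 2 * δ + 2 * δ * r := by
          rw [Finset.sum_add_distrib]
          exact add_le_add h3 ih
      _ = 2 * δ * ((r + 1 : ℕ) : ℝ) := by
          push_cast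
          ring

/-- removing a short product on the left -/
theorem row_close (R P : Matrix V V ℝ) (hP : DS P) (a : V) (ε : ℝ)
    (hR : ∑ y, |R a y - (1 : Matrix V V ℝ) a y| ≤ ε) : ∑ y, |(R * P) a y - P a y| ≤ ε := by
  have h1 : ∀ y, (R * P) a y - P a y = ∑ z, (R a z - (1 : Matrix V V ℝ) a z) * P z y := by
    intro y
    simp only [sub_mul, Finset.sum_sub_distrib]
    rw [← Matrix.mul_apply, ← Matrix.mul_apply, Matrix.one_mul]
  simp only [h1]
  exact (Pool.Agent.Q151.LC.l1_stoch (fun z => R a z - (1 : Matrix V V ℝ) a z) P hP.nn hP.row).trans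
    hR

end gen

theorem per_sh {d L : ℕ} (σ : ℕ → (Fin d → ZMod L) × Fin d) (hσ : Per σ) (s : ℕ) :
    sh (s * ms d L) (ed ∘ σ) = ed ∘ σ := by
  funext k
  show ed (σ (k + s * ms d L)) = ed (σ k)
  congr 1
  induction s with
  | zero => simp
  | succ s ih => rw [Nat.succ_mul, ← add_assoc, hσ.1, ih]

theorem grd : S_GRD := by
  intro d hd
  obtain ⟨G₀, hG₀, hgr⟩ := Pool.Agent.Helper47K9.SC.gr d hd
  refine ⟨G₀ + 1, by linarith, ?_⟩
  intro L _ hL K
  obtain ⟨C, hC⟩ := Pool.Agent.Q297.LC.tro d L hd hL K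
  set m := ms d L with hm
  have hm0 : 0 < m := by
    rw [hm, ms]
    exact Nat.mul_pos (pow_pos (by omega) _) (by omega)
  set N : ℝ := (Fintype.card (Fin d → ZMod L) : ℝ) with hN
  have hN0 : 0 ≤ N := Nat.cast_nonneg _
  set E : ℝ := 8 * m + 2 * (N * |C|) with hE
  have hE0 : 0 ≤ E := by positivity
  refine ⟨max 2 ⌈E * Real.sqrt K⌉₊, ?_⟩
  intro q hq σ hσ δ hδ1 hδ2 j hj i hi p
  have hq2 : 2 ≤ q := (le_max_left _ _).trans hq
  have hqE : E * Real.sqrt K ≤ q :=
    (Nat.le_ceil _).trans (by exact_mod_cast (le_max_right _ _).trans hq)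
  have hq0 : (0 : ℝ) < q := by
    have : 0 < q := by omega
    exact_mod_cast this
  have hδ0 : 0 < δ := by
    by_contra h
    push Not at h
    have := mul_nonpos_of_nonpos_of_nonneg h hq0.le
    linarith
  have hδ1' : δ ≤ 1 := by
    have h2 : (2 : ℝ) ≤ q := by exact_mod_cast hq2
    nlinarith
  -- the arithmetic
  set k := j * (q * m) + i + 1 with hk
  have hkle : k ≤ (j + 1) * (q * m) := by
    rw [hk, Nat.add_mul, one_mul]
    omega
  obtain ⟨s', r, hr, hkr, hs'⟩ : ∃ s' r : ℕ, r < m ∧ k + r = s' * m ∧ s' ≤ (j + 1) * q := by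
    have h1 : k + (m - 1) - (k + (m - 1)) % m = (k + (m - 1)) / m * m := by
      have := Nat.div_add_mod (k + (m - 1)) m
      rw [Nat.mul_comm] at this
      omega
    have h2 := Nat.mod_lt (k + (m - 1)) hm0
    refine ⟨(k + (m - 1)) / m, m - 1 - (k + (m - 1)) % m, by omega, by omega, ?_⟩
    have h3 : (k + (m - 1)) / m < (j + 1) * q + 1 := by
      rw [Nat.div_lt_iff_lt_mul hm0]
      calc k + (m - 1) ≤ (j + 1) * (q * m) + (m - 1) := by omega
        _ = (j + 1) * q * m + (m - 1) := by rw [Nat.mul_assoc]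
        _ < ((j + 1) * q + 1) * m := by rw [Nat.add_mul ((j + 1) * q), one_mul]; omega
    omega
  have hsK : (j + 1) * q ≤ K * q := Nat.mul_le_mul_right _ hj
  obtain ⟨s, hs⟩ : ∃ s, K * q = s' + s := ⟨K * q - s', by omega⟩
  have hlen : K * (q * m) - k = r + s * m := by
    have h1 : K * (q * m) = s' * m + s * m := by
      rw [← Nat.mul_assoc, hs, Nat.add_mul]
    omega
  have hPP : PP (sh k (ed ∘ σ)) δ (K * (q * m) - k) =
      PP (sh k (ed ∘ σ)) δ r * PP (ed ∘ σ) δ (s * m) := by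
    rw [hlen, PP_add]
    congr 2
    have h1 : sh r (sh k (ed ∘ σ)) = sh (s' * m) (ed ∘ σ) := by
      funext x
      show (ed ∘ σ) (x + r + k) = (ed ∘ σ) (x + s' * m)
      congr 1
      omega
    rw [h1]
    exact per_sh σ hσ s'
  rw [hPP]
  set P := PP (ed ∘ σ) δ (s * m) with hP
  have hPD : DS P := DS_PP _ hδ0.le hδ1' _
  set R := PP (sh k (ed ∘ σ)) δ r with hR
  have hrow : ∀ a, ∑ y, |(R * P) a y - P a y| ≤ 4 * m / q := by
    intro a
    refine (row_close R P hPD a _ (near_one (sh k (ed ∘ σ)) hδ0.le hδ1' a r)).trans ?_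
    rw [le_div_iff₀ hq0]
    have h1 : (r : ℝ) ≤ m := by exact_mod_cast hr.le
    have h2 : 2 * δ * r * q = 2 * (δ * q) * r := by ring
    rw [h2]
    have h3 : 0 ≤ (r : ℝ) := Nat.cast_nonneg _
    nlinarith
  have hu0 : 0 ≤ (s : ℝ) * δ := by positivity
  have hqq : ∀ a, ∑ y, |P a y - qq (nnRate d L) (s * δ) a y| ≤ N * |C| / q := by
    intro a
    have h1 := (hC q (by omega) σ hσ δ hδ0.le hδ1' hδ2 s (by omega)).2
    calc ∑ y, |P a y - qq (nnRate d L) (s * δ) a y| ≤ ∑ _y : Fin d → ZMod L, |C| / q := by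
          apply Finset.sum_le_sum
          intro y _
          refine (h1 a y).trans ?_
          exact div_le_div_of_nonneg_right (le_abs_self C) hq0.le
      _ = N * |C| / q := by
          rw [Finset.sum_const, Finset.card_univ, nsmul_eq_mul, ← hN]
          ring
  have hnn : nnRate d L (ed p).1 (ed p).2 ≠ 0 := by
    unfold nnRate ed
    rw [if_pos ⟨p.2, Or.inl rfl⟩]
    exact one_ne_zero
  have hgr1 := (hgr L hL).1 ((s : ℝ) * δ) hu0 (ed p).1 (ed p).2 hnn
  have hKj : (0 : ℝ) < (K : ℝ) - j := by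
    have : (j : ℝ) < K := by exact_mod_cast hj
    linarith
  have hsl : (K : ℝ) - j ≤ 1 + s * δ := by
    have h1 : (s' : ℝ) ≤ (j + 1) * q := by exact_mod_cast hs'
    have h2 : (K : ℝ) * q = s' + s := by exact_mod_cast hs
    have h3 : ((K : ℝ) - 1 - j) * q ≤ s := by nlinarith
    have h4 : 0 ≤ (K : ℝ) - 1 - j := by
      have : (j : ℝ) + 1 ≤ K := by exact_mod_cast hj
      linarith
    have h5 : ((K : ℝ) - 1 - j) * q * δ ≤ s * δ := mul_le_mul_of_nonneg_right h3 hδ0.le
    have h6 : ((K : ℝ) - 1 - j) * 1 ≤ ((K : ℝ) - 1 - j) * (δ * q) :=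
      mul_le_mul_of_nonneg_left hδ1 h4
    nlinarith
  have hsq : 0 < Real.sqrt ((K : ℝ) - j) := Real.sqrt_pos.2 hKj
  have hg2 : G₀ / Real.sqrt (1 + s * δ) ≤ G₀ / Real.sqrt ((K : ℝ) - j) :=
    div_le_div_of_nonneg_left hG₀.le hsq (Real.sqrt_le_sqrt hsl)
  have hK0 : 0 < Real.sqrt (K : ℝ) := by
    apply Real.sqrt_pos.2
    have : 0 < K := by omega
    exact_mod_cast this
  have herr : E / q ≤ 1 / Real.sqrt ((K : ℝ) - j) := by
    have h1 : E / q ≤ 1 / Real.sqrt K := by
      rw [div_le_div_iff₀ hq0 hK0]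
      linarith
    refine h1.trans ?_
    apply one_div_le_one_div_of_le hsq
    apply Real.sqrt_le_sqrt
    have : (0 : ℝ) ≤ j := Nat.cast_nonneg _
    linarith
  have tri : ∀ y, |(R * P) (ed p).1 y - (R * P) (ed p).2 y| ≤
      |(R * P) (ed p).1 y - P (ed p).1 y| + |(R * P) (ed p).2 y - P (ed p).2 y| +
      |P (ed p).1 y - qq (nnRate d L) (s * δ) (ed p).1 y| +
      |P (ed p).2 y - qq (nnRate d L) (s * δ) (ed p).2 y| +
      |qq (nnRate d L) (s * δ) (ed p).1 y - qq (nnRate d L) (s * δ) (ed p).2 y| := by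
    intro y
    generalize (R * P) (ed p).1 y = A1
    generalize (R * P) (ed p).2 y = A2
    generalize P (ed p).1 y = B1
    generalize P (ed p).2 y = B2
    generalize qq (nnRate d L) (s * δ) (ed p).1 y = C1
    generalize qq (nnRate d L) (s * δ) (ed p).2 y = C2
    rw [abs_le]
    have a1 := abs_le.1 (le_refl |A1 - B1|)
    have a2 := abs_le.1 (le_refl |A2 - B2|)
    have a3 := abs_le.1 (le_refl |B1 - C1|)
    have a4 := abs_le.1 (le_refl |B2 - C2|)
    have a5 := abs_le.1 (le_refl |C1 - C2|)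
    constructor <;> linarith [a1.1, a1.2, a2.1, a2.2, a3.1, a3.2, a4.1, a4.2, a5.1, a5.2]
  refine (Finset.sum_le_sum fun y _ => tri y).trans ?_
  rw [Finset.sum_add_distrib, Finset.sum_add_distrib, Finset.sum_add_distrib,
    Finset.sum_add_distrib]
  have f1 := hrow (ed p).1
  have f2 := hrow (ed p).2
  have f3 := hqq (ed p).1
  have f4 := hqq (ed p).2
  have f5 : E / q = 4 * m / q + 4 * m / q + N * |C| / q + N * |C| / q := by
    rw [hE]
    ring
  have f6 : (G₀ + 1) / Real.sqrt ((K : ℝ) - j) = G₀ / Real.sqrt ((K : ℝ) - j) +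
      1 / Real.sqrt ((K : ℝ) - j) := by ring
  rw [f6]
  linarith

end Pool.Agent.H640.PN
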